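import Mathlib
import Pool.Agent.H222R3.Weyl2b

/-!
# The extended main conjecture for Vinogradov mean values fails for `k = 2`

The conjectured bound, uniform in measurable sets `B`, is false for `k = 2` and every real
`s` with `5/2 ≤ s < 3`: a union of small boxes around the points `(b/q, a/q)` with
`q ≤ X^(s/3)` and `a` prime to `q` violates it by the factor `X^(s(3-s)/3)`.
-/

set_option autoImplicit false

open MeasureTheory Pool.Agent.H222R3

namespace Pool.Agent.Results.MP_35679e_nt.QuadraticFailure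

/-- The Weyl sum `f_k(α; X) = ∑_{1 ≤ x ≤ X} e(α₁ x + ⋯ + α_k x^k)`, with `α_j = α (j - 1)`. -/
noncomputable def weyl (k : ℕ) (X : ℝ) (α : Fin k → ℝ) : ℂ :=
  ∑ x ∈ Finset.Icc 1 ⌊X⌋₊, Complex.exp (2 * (Real.pi : ℂ) * Complex.I *
    ∑ j : Fin k, (α j : ℂ) * (x : ℂ) ^ ((j : ℕ) + 1))

/-- The bound of the extended main conjecture for given `k`, `s`, `ε`, uniformly in real `X ≥ 1`
and Lebesgue measurable `B ⊆ [0,1)^k`. -/
def ExtendedBound (k : ℕ) (s ε : ℝ) : Prop :=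
  ∃ C : ℝ, ∀ X : ℝ, 1 ≤ X → ∀ B : Set (Fin k → ℝ), NullMeasurableSet B volume →
    B ⊆ Set.pi Set.univ (fun _ => Set.Ico (0 : ℝ) 1) →
    ∫ α in B, ‖weyl k X α‖ ^ (2 * s) ≤
      C * X ^ ε * (X ^ s * (volume B).toReal + X ^ (2 * s - (k : ℝ) * ((k : ℝ) + 1) / 2))

lemma bernoulli_aux (s t y : ℝ) (hs : 1 ≤ s) (ht : 0 < t) (hy : 0 ≤ y) :
    t ^ s + s * t ^ (s - 1) * (y - t) ≤ y ^ s := by
  have h1 : 1 + s * (y / t - 1) ≤ (1 + (y / t - 1)) ^ s := by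
    apply one_add_mul_self_le_rpow_one_add _ hs
    have : 0 ≤ y / t := by positivity
    linarith
  have h2 : (1 + (y / t - 1)) ^ s = y ^ s / t ^ s := by
    rw [show 1 + (y / t - 1) = y / t by ring, Real.div_rpow hy ht.le]
  rw [h2, le_div_iff₀ (Real.rpow_pos_of_pos ht s)] at h1
  have h3 : t ^ s = t ^ (s - 1) * t := by
    rw [← Real.rpow_add_one ht.ne', sub_add_cancel]
  calc t ^ s + s * t ^ (s - 1) * (y - t) = (1 + s * (y / t - 1)) * t ^ s := by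
        rw [h3]
        field_simp
    _ ≤ y ^ s := h1

lemma norm_weyl_two (X : ℕ) (α : Fin 2 → ℝ) (s : ℝ) :
    ‖weyl 2 (X : ℝ) α‖ ^ (2 * s) = (Fs X α) ^ s := by
  unfold weyl Fs ph
  rw [Nat.floor_natCast, ← Real.rpow_natCast, ← Real.rpow_mul (norm_nonneg _)]
  congr 2
  refine Finset.sum_congr rfl fun x _ => ?_
  congr 1
  rw [Fin.sum_univ_two]
  push_cast
  simp

lemma Fs_nonneg (X : ℕ) (α : Fin 2 → ℝ) : 0 ≤ Fs X α := by
  unfold Fs; positivity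

lemma integrable_pow (X Q : ℕ) (hQX : Q ≤ X) (s : ℝ) (hs : 0 ≤ s) :
    IntegrableOn (fun α => (Fs X α) ^ s) (Bs X Q) := by
  have hK : IsCompact (Set.pi Set.univ fun _ : Fin 2 => Set.Icc (0 : ℝ) 1) :=
    isCompact_univ_pi fun j => isCompact_Icc
  have hc : Continuous fun α => (Fs X α) ^ s :=
    (Fs_cont X).rpow_const fun _ => Or.inr hs
  refine (hc.continuousOn.integrableOn_compact hK).mono_set ?_
  exact (Bs_sub X Q hQX).trans (Set.pi_mono fun j _ => Set.Ico_subset_Icc_self)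

lemma vol_finite (X Q : ℕ) (hQX : Q ≤ X) : volume (Bs X Q) ≠ ⊤ := by
  have h1 : volume (Bs X Q) ≤ volume (Set.pi Set.univ fun _ : Fin 2 => Set.Ico (0 : ℝ) 1) :=
    measure_mono (Bs_sub X Q hQX)
  have h2 : volume (Set.pi Set.univ fun _ : Fin 2 => Set.Ico (0 : ℝ) 1) ≠ ⊤ := by
    rw [Real.volume_pi_Ico]
    exact ENNReal.prod_ne_top fun i _ => ENNReal.ofReal_ne_top
  exact ne_top_of_le_ne_top h2 h1

/-- lower bound for the `2s`-th moment over the union of boxes -/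
lemma moment_lower (X Q : ℕ) (hX : 0 < X) (hQ : 0 < Q) (hQX : Q ≤ X) (s : ℝ) (hs : 1 ≤ s) :
    ((X : ℝ) ^ 2 / (2 * Q)) ^ s * (volume (Bs X Q)).toReal ≤ ∫ α in Bs X Q, (Fs X α) ^ s := by
  set t : ℝ := (X : ℝ) ^ 2 / (2 * Q) with ht
  have hXr : (0 : ℝ) < X := by exact_mod_cast hX
  have hQr : (0 : ℝ) < Q := by exact_mod_cast hQ
  have ht0 : 0 < t := by rw [ht]; positivity
  have h1 := Bs_int X Q hX hQ hQX
  rw [← ht] at h1
  have hi1 : IntegrableOn (fun α => Fs X α) (Bs X Q) := by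
    have := integrable_pow X Q hQX 1 zero_le_one
    simpa using this
  have hc : IntegrableOn (fun _ : Fin 2 → ℝ => t ^ s - s * t ^ (s - 1) * t) (Bs X Q) :=
    integrableOn_const (vol_finite X Q hQX)
  have h2 : ∫ α in Bs X Q, ((t ^ s - s * t ^ (s - 1) * t) + s * t ^ (s - 1) * Fs X α)
      ≤ ∫ α in Bs X Q, (Fs X α) ^ s := by
    apply integral_mono (hc.add (hi1.const_mul _)) (integrable_pow X Q hQX s (by linarith))
    intro α
    have := bernoulli_aux s t (Fs X α) hs ht0 (Fs_nonneg X α)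
    simp only [Pi.add_apply]
    linarith
  rw [integral_add hc (hi1.const_mul _), integral_const_mul, setIntegral_const, smul_eq_mul] at h2
  have h3 : 0 ≤ s * t ^ (s - 1) := by positivity
  have h4 := mul_le_mul_of_nonneg_left h1 h3
  have h5 : (volume.real (Bs X Q)) = (volume (Bs X Q)).toReal := rfl
  rw [h5] at h2
  nlinarith [h2, h4]

lemma fail (s : ℝ) (hs1 : 1 ≤ s) (hs3 : s < 3) (ε : ℝ) (hε : ε < s * (3 - s) / 3) :
    ¬ ExtendedBound 2 s ε := by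
  rintro ⟨C, hC⟩
  set δ : ℝ := s * (3 - s) / 3 - ε with hδ
  have hδ0 : 0 < δ := by rw [hδ]; linarith
  set K : ℝ := 3 * 73728 * (2 : ℝ) ^ s * (|C| + 1) with hK
  -- choose X
  have hlim : Filter.Tendsto (fun n : ℕ => (n : ℝ) ^ δ) Filter.atTop Filter.atTop :=
    (tendsto_rpow_atTop hδ0).comp tendsto_natCast_atTop_atTop
  obtain ⟨X, hX1, hXK⟩ := ((Filter.eventually_ge_atTop 1).and
    (hlim.eventually_gt_atTop K)).exists
  have hX0 : 0 < X := hX1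
  have hXr1 : (1 : ℝ) ≤ X := by exact_mod_cast hX1
  have hXr : (0 : ℝ) < X := by linarith
  set u : ℝ := s / 3 with hu
  set Q : ℕ := ⌊(X : ℝ) ^ u⌋₊ with hQ
  have hXu : (1 : ℝ) ≤ (X : ℝ) ^ u := Real.one_le_rpow hXr1 (by positivity)
  have hQ1 : 1 ≤ Q := by
    rw [hQ]; exact Nat.le_floor (by exact_mod_cast hXu)
  have hQr1 : (1 : ℝ) ≤ Q := by exact_mod_cast hQ1
  have hQle : (Q : ℝ) ≤ (X : ℝ) ^ u := Nat.floor_le (by positivity)
  have hQge : (X : ℝ) ^ u / 2 ≤ Q := by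
    have := Nat.lt_floor_add_one ((X : ℝ) ^ u)
    rw [← hQ] at this
    linarith
  have hQX : Q ≤ X := by
    have h1 : (X : ℝ) ^ u ≤ X := by
      calc (X : ℝ) ^ u ≤ (X : ℝ) ^ (1 : ℝ) :=
            Real.rpow_le_rpow_of_exponent_le hXr1 (by rw [hu]; linarith)
        _ = X := Real.rpow_one _
    exact_mod_cast hQle.trans h1
  set V : ℝ := (volume (Bs X Q)).toReal with hV
  -- lower bound for the volume
  have hVlow : (X : ℝ) ^ (3 * u - 3) / 73728 ≤ V := by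
    rw [hV, Bs_vol X Q hQX]
    have h1 := totient_sum Q (by omega)
    have h2 : ((X : ℝ) ^ u / 2) ^ 3 ≤ (Q : ℝ) ^ 3 := pow_le_pow_left₀ (by positivity) hQge 3
    have h3 : (X : ℝ) ^ (3 * u - 3) = ((X : ℝ) ^ u) ^ 3 / (X : ℝ) ^ 3 := by
      rw [Real.rpow_sub hXr, mul_comm 3 u, Real.rpow_mul hXr.le]
      norm_cast
    calc (X : ℝ) ^ (3 * u - 3) / 73728
        = (1 / (144 * (X : ℝ) ^ 3)) * (((X : ℝ) ^ u / 2) ^ 3 / 64) := by
          rw [h3]; field_simp; norm_num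
      _ ≤ (1 / (144 * (X : ℝ) ^ 3)) * ((Q : ℝ) ^ 3 / 64) := by gcongr
      _ ≤ _ := mul_le_mul_of_nonneg_left h1 (by positivity)
  have hV0 : 0 < V := lt_of_lt_of_le (by positivity) hVlow
  -- the inequality
  have h := hC X hXr1 (Bs X Q) (Bs_meas X Q).nullMeasurableSet (Bs_sub X Q hQX)
  simp_rw [norm_weyl_two] at h
  have hlow := (moment_lower X Q hX0 (by omega) hQX s hs1).trans h
  rw [← hV] at hlow
  -- lower bound for t^s
  have ht : (X : ℝ) ^ ((2 - u) * s) / (2 : ℝ) ^ s ≤ ((X : ℝ) ^ 2 / (2 * Q)) ^ s := by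
    rw [Real.rpow_mul hXr.le, ← Real.div_rpow (by positivity) (by norm_num)]
    apply Real.rpow_le_rpow (by positivity) _ (by linarith)
    rw [Real.rpow_sub hXr, div_div, Real.rpow_ofNat]
    apply div_le_div_of_nonneg_left (by positivity) (by positivity)
    linarith
  have hmain : (X : ℝ) ^ ((2 - u) * s) / (2 : ℝ) ^ s * V ≤
      |C| * (X : ℝ) ^ ε * ((X : ℝ) ^ s * V + (X : ℝ) ^ (2 * s - 3)) := by
    calc (X : ℝ) ^ ((2 - u) * s) / (2 : ℝ) ^ s * V ≤ ((X : ℝ) ^ 2 / (2 * Q)) ^ s * V :=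
          mul_le_mul_of_nonneg_right ht hV0.le
      _ ≤ _ := hlow
      _ = C * (X : ℝ) ^ ε * ((X : ℝ) ^ s * V + (X : ℝ) ^ (2 * s - 3)) := by
          congr 3
          push_cast; ring
      _ ≤ _ := by
          gcongr
          exact le_abs_self C
  -- exponents
  have e1 : (X : ℝ) ^ ((2 - u) * s) = (X : ℝ) ^ δ * ((X : ℝ) ^ ε * (X : ℝ) ^ s) := by
    rw [← Real.rpow_add hXr, ← Real.rpow_add hXr]
    congr 1
    rw [hδ, hu]; ring
  have e2 : (X : ℝ) ^ ((2 - u) * s) * (X : ℝ) ^ (3 * u - 3) =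
      (X : ℝ) ^ δ * ((X : ℝ) ^ ε * (X : ℝ) ^ (2 * s - 3)) := by
    rw [← Real.rpow_add hXr, ← Real.rpow_add hXr, ← Real.rpow_add hXr]
    congr 1
    rw [hδ, hu]; ring
  set P : ℝ := (2 : ℝ) ^ s with hP
  have hP0 : 0 < P := by rw [hP]; positivity
  have hC0 : 0 ≤ |C| := abs_nonneg C
  have a1 : |C| * ((X : ℝ) ^ ε * (X : ℝ) ^ s) * V ≤
      1 / 3 * ((X : ℝ) ^ ((2 - u) * s) / P * V) := by
    rw [e1]
    have : |C| * P * 3 ≤ (X : ℝ) ^ δ := by
      rw [hK] at hXK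
      nlinarith [mul_nonneg hC0 hP0.le]
    have h2 : |C| ≤ (X : ℝ) ^ δ / (3 * P) := by
      rw [le_div_iff₀ (by positivity)]; linarith
    have h3 : 0 ≤ ((X : ℝ) ^ ε * (X : ℝ) ^ s) * V := by positivity
    calc |C| * ((X : ℝ) ^ ε * (X : ℝ) ^ s) * V = |C| * (((X : ℝ) ^ ε * (X : ℝ) ^ s) * V) := by ring
      _ ≤ ((X : ℝ) ^ δ / (3 * P)) * (((X : ℝ) ^ ε * (X : ℝ) ^ s) * V) :=
          mul_le_mul_of_nonneg_right h2 h3
      _ = _ := by field_simp
  have a2 : |C| * ((X : ℝ) ^ ε * (X : ℝ) ^ (2 * s - 3)) <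
      1 / 3 * ((X : ℝ) ^ ((2 - u) * s) / P * V) := by
    have h1 : (X : ℝ) ^ ((2 - u) * s) / P * ((X : ℝ) ^ (3 * u - 3) / 73728) ≤
        (X : ℝ) ^ ((2 - u) * s) / P * V := mul_le_mul_of_nonneg_left hVlow (by positivity)
    have h2 : (X : ℝ) ^ ((2 - u) * s) / P * ((X : ℝ) ^ (3 * u - 3) / 73728) =
        (X : ℝ) ^ δ / (P * 73728) * ((X : ℝ) ^ ε * (X : ℝ) ^ (2 * s - 3)) := by
      calc (X : ℝ) ^ ((2 - u) * s) / P * ((X : ℝ) ^ (3 * u - 3) / 73728)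
          = ((X : ℝ) ^ ((2 - u) * s) * (X : ℝ) ^ (3 * u - 3)) / (P * 73728) := by
            field_simp
        _ = _ := by rw [e2]; field_simp
    have h3 : 3 * |C| < (X : ℝ) ^ δ / (P * 73728) := by
      rw [lt_div_iff₀ (by positivity)]
      rw [hK] at hXK
      nlinarith [mul_nonneg hC0 hP0.le]
    have h4 : 0 < (X : ℝ) ^ ε * (X : ℝ) ^ (2 * s - 3) := by positivity
    have h5 := mul_lt_mul_of_pos_right h3 h4
    rw [h2] at h1
    linarith
  have h0 : 0 ≤ (X : ℝ) ^ ((2 - u) * s) / P * V := by positivity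
  have hexp : |C| * (X : ℝ) ^ ε * ((X : ℝ) ^ s * V + (X : ℝ) ^ (2 * s - 3)) =
      |C| * ((X : ℝ) ^ ε * (X : ℝ) ^ s) * V + |C| * ((X : ℝ) ^ ε * (X : ℝ) ^ (2 * s - 3)) := by
    ring
  rw [hexp] at hmain
  linarith

/-- **The extended main conjecture is false.**  For `k = 2` the conjectured bound fails for every
real `s` with `1 ≤ s < 3` and every `ε < s (3 - s) / 3`; the range `5/2 ≤ s < 3` lies in the
conjectured range `s ≥ k (k + 1) / 4 + 1`, so the conjecture (all `k ≥ 1`, all real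
`s ≥ k (k + 1) / 4 + 1`, all `ε > 0`) is false. -/
theorem result :
    (∀ s ε : ℝ, 1 ≤ s → s < 3 → ε < s * (3 - s) / 3 → ¬ ExtendedBound 2 s ε) ∧
    ¬ (∀ k : ℕ, 1 ≤ k → ∀ s : ℝ, (k : ℝ) * ((k : ℝ) + 1) / 4 + 1 ≤ s → ∀ ε : ℝ, 0 < ε →
      ExtendedBound k s ε) := by
  refine ⟨fun s ε h1 h3 hε => fail s h1 h3 ε hε, fun H => ?_⟩
  refine fail (5 / 2) (by norm_num) (by norm_num) (1 / 4) (by norm_num)
    (H 2 (by norm_num) (5 / 2) (by norm_num) (1 / 4) (by norm_num))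

end Pool.Agent.Results.MP_35679e_nt.QuadraticFailure
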